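import Pool.Agent.H48.FR.Targets

/-!
# Module SP: compactness of the sphere, continuity and surjectivity of the projection
-/

set_option autoImplicit false

namespace Pool.Agent.H42.FR

open Pool.Agent.H48.FR Filter Topology

section

variable {𝕜 : Type} [NormedDivisionRing 𝕜] [StarRing 𝕜] [NormedAlgebra ℝ 𝕜] [PF 𝕜]

theorem continuous_nrm (n : ℕ) : Continuous (nrm : (Fin n → 𝕜) → ℝ) := by
  unfold nrm
  exact (continuous_finsetSum _ fun i _ => ((continuous_apply i).norm).pow 2).sqrt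

theorem norm_le_nrm {n : ℕ} (x : Fin n → 𝕜) (i : Fin n) : ‖x i‖ ≤ nrm x := by
  have h1 : ‖x i‖ ^ 2 ≤ nrm x ^ 2 := by
    rw [nrm_sq]
    exact Finset.single_le_sum (f := fun j => ‖x j‖ ^ 2) (fun j _ => sq_nonneg _)
      (Finset.mem_univ i)
  exact le_of_sq_le_sq h1 (nrm_nonneg x)

theorem isCompact_sph (n : ℕ) : IsCompact {x : Fin (n + 1) → 𝕜 | nrm x = 1} := by
  have := PF.fin (𝕜 := 𝕜)
  have h1 : ProperSpace 𝕜 := FiniteDimensional.proper_real 𝕜
  have hcl : IsClosed {x : Fin (n + 1) → 𝕜 | nrm x = 1} :=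
    isClosed_eq (continuous_nrm _) continuous_const
  refine Metric.isCompact_of_isClosed_isBounded hcl ?_
  refine (Metric.isBounded_closedBall (x := (0 : Fin (n + 1) → 𝕜)) (r := 1)).subset ?_
  intro x hx
  rw [mem_closedBall_zero_iff, pi_norm_le_iff_of_nonneg zero_le_one]
  intro i
  exact (norm_le_nrm x i).trans (le_of_eq hx)

theorem isCompact_usc : IsCompact {q : 𝕜 | ‖q‖ = 1} := by
  have := PF.fin (𝕜 := 𝕜)
  have h1 : ProperSpace 𝕜 := FiniteDimensional.proper_real 𝕜
  have hcl : IsClosed {q : 𝕜 | ‖q‖ = 1} := isClosed_eq continuous_norm continuous_const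
  refine Metric.isCompact_of_isClosed_isBounded hcl ?_
  refine (Metric.isBounded_closedBall (x := (0 : 𝕜)) (r := 1)).subset ?_
  intro x hx
  rw [mem_closedBall_zero_iff]
  exact le_of_eq hx

theorem continuous_prS (n : ℕ) : Continuous (prS : Sph 𝕜 n → PP 𝕜 n) := by
  rw [continuous_iff_continuousAt]
  intro y
  rw [ContinuousAt, tendsto_iff_dist_tendsto_zero]
  have h1 : ∀ x : Sph 𝕜 n, dist (prS x) (prS y) = Real.arccos ‖hp x.1 y.1‖ := by
    intro x
    unfold prS
    rw [dist_mk, pd_unit x.2 y.2]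
  have h2 : Continuous fun x : Sph 𝕜 n => Real.arccos ‖hp x.1 y.1‖ := by
    refine Real.continuous_arccos.comp (Continuous.norm ?_)
    unfold hp
    refine continuous_finsetSum _ fun i _ => ?_
    exact ((continuous_apply i).comp continuous_subtype_val).mul continuous_const
  have h3 := h2.tendsto y
  have h4 : Real.arccos ‖hp y.1 y.1‖ = 0 := by
    rw [← pd_unit y.2 y.2, pd_self (sph_ne y)]
  simp only [h4] at h3
  simpa only [h1] using h3

theorem surjective_prS (n : ℕ) : Function.Surjective (prS : Sph 𝕜 n → PP 𝕜 n) := by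
  intro P
  obtain ⟨a, ha, h⟩ := exists_unit P.rep_ne
  refine ⟨⟨a • P.rep, h⟩, ?_⟩
  exact ((PP.mk_eq_iff _ P.rep_ne).2 ⟨a, ha, rfl⟩).trans P.mk_rep

end

theorem sp : T_SP := by
  intro 𝕜 _ _ _ _ n
  exact ⟨isCompact_iff_compactSpace.1 (isCompact_sph n),
    isCompact_iff_compactSpace.1 isCompact_usc, continuous_prS n, surjective_prS n⟩

end Pool.Agent.H42.FR
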